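import Pool.Agent.Q278.CycCong
import Pool.Agent.Q278.Unit

set_option autoImplicit false

/-! `R_r(q) ≡ R_s(q) (mod Φ_{n^s}(q)²)` for `n ≡ 1 (mod 4)` and `r > s`. -/

namespace Pool.Agent.Results.MP_74870a_nt.Full

open Finset Polynomial Q278.Loc Q278.Cyc Q278.Unit

/-- `(a; Q)_k`. -/
noncomputable def P (a Q : RatFunc ℚ) (k : ℕ) : RatFunc ℚ := ∏ j ∈ range k, (1 - a * Q ^ j)

/-- The ratio `R_t(q)` (for the given `n`). -/
noncomputable def R (n t : ℕ) : RatFunc ℚ :=
  (P RatFunc.X (RatFunc.X ^ 2) ((n ^ t - 1) / 4) *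
    P (RatFunc.X ^ (2 * n)) (RatFunc.X ^ (2 * n)) ((n ^ (t - 1) - 1) / 4)) /
  (P (RatFunc.X ^ 2) (RatFunc.X ^ 2) ((n ^ t - 1) / 4) *
    P (RatFunc.X ^ n) (RatFunc.X ^ (2 * n)) ((n ^ (t - 1) - 1) / 4))

/-- the factors -/
noncomputable def g (i : ℕ) : RatFunc ℚ := if Even i then (1 - q ^ i)⁻¹ else 1 - q ^ i

/-- the factors, without the multiples of `n` -/
noncomputable def f (n i : ℕ) : RatFunc ℚ := if n ∣ i then 1 else g i

theorem one_sub_q_ne {i : ℕ} (hi : 0 < i) : (1 : RatFunc ℚ) - q ^ i ≠ 0 := by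
  intro h
  have h1 : (RatFunc.X : RatFunc ℚ) ^ i = 1 := (sub_eq_zero.1 h).symm
  have h2 : algebraMap ℚ[X] (RatFunc ℚ) (X ^ i) = algebraMap ℚ[X] (RatFunc ℚ) 1 := by
    rw [map_pow, RatFunc.algebraMap_X, h1, map_one]
  have h3 := RatFunc.algebraMap_injective ℚ h2
  have h4 := congrArg Polynomial.natDegree h3
  rw [natDegree_X_pow, natDegree_one] at h4
  omega

theorem g_two (m T : ℕ) (hm : Odd m) : ∏ k ∈ range (2 * T), g (m * (k + 1)) =
    P (q ^ m) (q ^ (2 * m)) T / P (q ^ (2 * m)) (q ^ (2 * m)) T := by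
  unfold P
  induction T with
  | zero => simp
  | succ T ih =>
    rw [show 2 * (T + 1) = 2 * T + 1 + 1 by ring, prod_range_succ, prod_range_succ, ih,
      prod_range_succ, prod_range_succ]
    have e1 : g (m * (2 * T + 1)) = 1 - q ^ m * (q ^ (2 * m)) ^ T := by
      unfold g
      rw [if_neg (by rw [Nat.not_even_iff_odd]; exact hm.mul ⟨T, rfl⟩), ← pow_mul, ← pow_add]
      congr 2; ring
    have e2 : g (m * (2 * T + 1 + 1)) = (1 - q ^ (2 * m) * (q ^ (2 * m)) ^ T)⁻¹ := by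
      unfold g
      rw [if_pos (by rw [show m * (2 * T + 1 + 1) = 2 * (m * (T + 1)) by ring]
                     exact even_two_mul _), ← pow_mul, ← pow_add]
      congr 3; ring
    rw [e1, e2, mul_div_mul_comm, ← div_eq_mul_inv]
    ring

theorem P_ne {a b T : ℕ} (ha : 0 < a) : P (q ^ a) (q ^ b) T ≠ 0 := by
  unfold P
  rw [prod_ne_zero_iff]
  intro i _
  rw [← pow_mul, ← pow_add]
  exact one_sub_q_ne (by omega)

/-- `R_t` as a product over the `i` not divisible by `n`. -/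
theorem R_eq {n t : ℕ} (hn : n % 4 = 1) (ht : 0 < t) :
    R n t = ∏ i ∈ range ((n ^ t - 1) / 2), f n (i + 1) := by
  have hpow : ∀ s, n ^ s % 4 = 1 := by
    intro s
    rw [Nat.pow_mod, hn, one_pow]; rfl
  set T := (n ^ t - 1) / 4 with hT
  set T' := (n ^ (t - 1) - 1) / 4 with hT'
  have h1 := hpow t
  have h2 := hpow (t - 1)
  have h3 : n ^ t = n * n ^ (t - 1) := by
    conv_lhs => rw [show t = (t - 1) + 1 by omega, pow_succ, mul_comm]
  have h4 : n ^ t = 4 * T + 1 := by omega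
  have h5 : n ^ (t - 1) = 4 * T' + 1 := by omega
  have h6 : (n ^ t - 1) / 2 = 2 * T := by omega
  have h7 : 2 * T = n * (2 * T') + (n - 1) / 2 := by
    have h8 : 4 * T + 1 = n * (4 * T' + 1) := by rw [← h4, ← h5, h3]
    have h9 : n = 2 * ((n - 1) / 2) + 1 := by omega
    have h10 : 2 * (2 * T) + 1 = 2 * (n * (2 * T')) + n := by linarith
    omega
  have h8 : 2 * T / n = 2 * T' := by
    rw [h7, Nat.mul_add_div (by omega), Nat.div_eq_of_lt (by omega), add_zero]
  have hodd : Odd n := Nat.odd_iff.2 (by omega)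
  have e := prod_multiples (n := n) (by omega) g (2 * T)
  rw [h8, g_two n T' hodd] at e
  have e' := g_two 1 T odd_one
  simp only [one_mul, pow_one, mul_one] at e'
  rw [e'] at e
  rw [h6]
  have hd : P (q ^ n) (q ^ (2 * n)) T' / P (q ^ (2 * n)) (q ^ (2 * n)) T' ≠ 0 :=
    div_ne_zero (P_ne (by omega)) (P_ne (by omega))
  have e3 : ∏ i ∈ range (2 * T), f n (i + 1) =
      ∏ i ∈ range (2 * T), if n ∣ i + 1 then 1 else g (i + 1) := rfl
  rw [e3, eq_div_of_mul_eq hd e]
  unfold R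
  rw [← hT, ← hT', div_div_div_eq]

section local_part

variable {n M h : ℕ} {η : ℂ}

/-- `u c_l` -/
noncomputable def F (n : ℕ) (u : RatFunc ℚ) (l : ℕ) : RatFunc ℚ :=
  if n ∣ l then 1 else if Even l then (u * ((1 - q ^ l) * (1 - q⁻¹ ^ l)))⁻¹ else
    u * ((1 - q ^ l) * (1 - q⁻¹ ^ l))

/-- `u ^ (± 1)` -/
noncomputable def w (n : ℕ) (u : RatFunc ℚ) (l : ℕ) : RatFunc ℚ :=
  if n ∣ l then 1 else if Even l then u⁻¹ else u

theorem F_eq (u : RatFunc ℚ) (l : ℕ) : F n u l = F n 1 l * w n u l := by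
  unfold F w
  split_ifs
  · simp
  · simp [mul_comm]
  · ring

theorem w_shift {u : RatFunc ℚ} (hu : u ≠ 0) (hn : Odd n) (l : ℕ) :
    w n u l * w n u (l + n) = 1 := by
  unfold w
  by_cases h1 : n ∣ l
  · rw [if_pos h1, if_pos (by simpa using h1), one_mul]
  · have h3 : ¬ n ∣ l + n := by simpa using h1
    rw [if_neg h1, if_neg h3]
    by_cases h2 : Even l
    · rw [if_pos h2, if_neg (by rw [Nat.not_even_iff_odd]; exact h2.add_odd hn),
        inv_mul_cancel₀ hu]
    · rw [if_neg h2, if_pos ((Nat.not_even_iff_odd.1 h2).add_odd hn), mul_inv_cancel₀ hu]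

theorem w_prod {u : RatFunc ℚ} (hu : u ≠ 0) (hn : n % 4 = 1) (c : ℕ) :
    ∏ i ∈ range (2 * n * c + (n - 1) / 2), w n u (i + 1) = 1 := by
  have hodd : Odd n := Nat.odd_iff.2 (by omega)
  induction c with
  | zero =>
    have h1 : ∀ v, 2 * v < n → ∏ i ∈ range (2 * v), w n u (i + 1) = 1 := by
      intro v
      induction v with
      | zero => intro _; simp
      | succ v ih =>
        intro hv
        rw [show 2 * (v + 1) = 2 * v + 1 + 1 by ring, prod_range_succ, prod_range_succ,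
          ih (by omega), one_mul]
        unfold w
        rw [if_neg (Nat.not_dvd_of_pos_of_lt (by omega) (by omega)),
          if_neg (Nat.not_dvd_of_pos_of_lt (by omega) (by omega)),
          if_neg (by rw [Nat.not_even_iff_odd]; exact ⟨v, rfl⟩),
          if_pos (by rw [show 2 * v + 1 + 1 = 2 * (v + 1) by ring]; exact even_two_mul _),
          mul_inv_cancel₀ hu]
    rw [mul_zero, zero_add, show (n - 1) / 2 = 2 * ((n - 1) / 4) by omega]
    exact h1 _ (by omega)
  | succ c ih =>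
    rw [show 2 * n * (c + 1) + (n - 1) / 2 = (2 * n * c + (n - 1) / 2) + n + n by ring,
      prod_range_add, prod_range_add, ih, one_mul, ← prod_mul_distrib]
    apply prod_eq_one
    intro i _
    have := w_shift hu hodd (2 * n * c + (n - 1) / 2 + i + 1)
    rw [← this]
    congr 2; ring

variable (hη : IsPrimitiveRoot η M) (hM : M = 2 * h + 1) (hnM : n ∣ M)
include hη hM

theorem unit_one_sub {i : ℕ} (hi : ¬ M ∣ i) : U (Reg η) (1 - q ^ i) :=
  ⟨one_sub_mem η i, inv_mem (one_sub_mem η i) (one_sub_ne hη hi), ne_zero_of_ev (one_sub_ne hη hi)⟩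

theorem unit_q (i : ℕ) : U (Reg η) (q ^ i) := by
  have hη0 : η ≠ 0 := hη.ne_zero (by omega)
  refine ⟨q_pow_mem η i, ?_, pow_ne_zero _ q_ne⟩
  rw [← inv_pow]; exact qi_mem hη0 i

theorem unit_qi {i : ℕ} (hi : ¬ M ∣ i) : U (Reg η) (1 - q⁻¹ ^ i) := by
  have e : 1 - q⁻¹ ^ i = (1 - q ^ i) * (-1) * (q ^ i)⁻¹ := by
    have : q ^ i ≠ 0 := pow_ne_zero _ q_ne
    rw [inv_pow]; field_simp; ring
  rw [e]
  refine ((unit_one_sub hη hM hi).mul ?_).mul (unit_q hη hM i).inv
  refine ⟨(Reg η).neg_mem (Reg η).one_mem, ?_, by norm_num⟩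
  rw [inv_neg, inv_one]
  exact (Reg η).neg_mem (Reg η).one_mem

/-- the pair of factors `b M - l`, `b M + l` -/
theorem pair {b l : ℕ} (hb : 0 < b) (hl : 0 < l) (hlh : l ≤ h) :
    Cg (Reg η) (Φ M) 2 ((1 - q ^ (b * M - l)) * (1 - q ^ (b * M + l)))
      (q ^ (b * M) * ((1 - q ^ l) * (1 - q⁻¹ ^ l))) := by
  have hlM : ¬ M ∣ l := Nat.not_dvd_of_pos_of_lt hl (by omega)
  have hbM : M ≤ b * M := Nat.le_mul_of_pos_left M hb
  have h1 : ¬ M ∣ b * M - l := by
    intro hd
    have := (Nat.dvd_sub (Dvd.intro_left b rfl : M ∣ b * M) hd)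
    rw [show b * M - (b * M - l) = l by omega] at this
    exact hlM this
  have h2 : ¬ M ∣ b * M + l := by
    intro hd
    exact hlM ((Nat.dvd_add_right (Dvd.intro_left b rfl)).1 hd)
  refine ⟨(unit_one_sub hη hM h1).mul (unit_one_sub hη hM h2),
    (unit_q hη hM _).mul ((unit_one_sub hη hM hlM).mul (unit_qi hη hM hlM)), ?_⟩
  have e : (1 - q ^ (b * M - l)) * (1 - q ^ (b * M + l)) -
      (q ^ (b * M) * ((1 - q ^ l) * (1 - q⁻¹ ^ l))) = (1 - q ^ (b * M)) ^ 2 := by
    have hq : q ^ l ≠ 0 := pow_ne_zero _ q_ne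
    have e1 : q ^ (b * M - l) = q ^ (b * M) * q⁻¹ ^ l := by
      rw [inv_pow, eq_mul_inv_iff_mul_eq₀ hq, ← pow_add]
      congr 1; omega
    have e2 : q ^ l * q⁻¹ ^ l = 1 := by rw [inv_pow, mul_inv_cancel₀ hq]
    rw [e1, pow_add]
    linear_combination (q ^ (b * M) ^ 1 * q ^ (b * M) - q ^ (b * M)) * e2
  rw [e]
  have h3 : (1 - q ^ (b * M)) ∈ I (Reg η) (Φ M) 1 := by
    apply mem_I_one (by omega) hη (one_sub_mem η _)
    rw [ev_one_sub, mul_comm, pow_mul, hη.pow_eq_one, one_pow, sub_self]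
  exact pow_I h3 2

include hnM in
theorem pair_f (hM1 : Odd M) {b l : ℕ} (hb : 0 < b) (hl : 0 < l) (hlh : l ≤ h) :
    Cg (Reg η) (Φ M) 2 (f n (b * M - l) * f n (b * M + l))
      (if Even b then F n (q ^ (b * M)) l else (F n (q ^ (b * M)) l)⁻¹) := by
  have hbM : M ≤ b * M := Nat.le_mul_of_pos_left M hb
  have hnb : n ∣ b * M := hnM.mul_left b
  by_cases hnl : n ∣ l
  · unfold f F
    rw [if_pos (Nat.dvd_sub hnb hnl), if_pos (Nat.dvd_add hnb hnl), if_pos hnl, inv_one, one_mul,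
      ite_self]
    exact Cg.refl U.one
  · have h1 : ¬ n ∣ b * M - l := by
      intro hd
      have := (Nat.dvd_sub hnb hd)
      rw [show b * M - (b * M - l) = l by omega] at this
      exact hnl this
    have h2 : ¬ n ∣ b * M + l := by
      intro hd
      exact hnl ((Nat.dvd_add_right hnb).1 hd)
    have hp := pair hη hM hb hl hlh
    unfold f F g
    rw [if_neg h1, if_neg h2, if_neg hnl]
    have hle : l ≤ b * M := by omega
    by_cases hbe : Even b
    · have hbMe : Even (b * M) := hbe.mul_right M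
      by_cases hle' : Even l
      · have e1 : Even (b * M - l) := (Nat.even_sub hle).2 (by tauto)
        have e2 : Even (b * M + l) := hbMe.add hle'
        rw [if_pos e1, if_pos e2, if_pos hbe, if_pos hle', ← mul_inv]
        exact hp.inv
      · have e1 : ¬ Even (b * M - l) := fun h => hle' (((Nat.even_sub hle).1 h).1 hbMe)
        have e2 : ¬ Even (b * M + l) := by
          rw [Nat.not_even_iff_odd]; exact hbMe.add_odd (Nat.not_even_iff_odd.1 hle')
        rw [if_neg e1, if_neg e2, if_pos hbe, if_neg hle']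
        exact hp
    · have hbMo : Odd (b * M) := (Nat.not_even_iff_odd.1 hbe).mul hM1
      by_cases hle' : Even l
      · have e1 : ¬ Even (b * M - l) := fun h =>
          (Nat.not_even_iff_odd.2 hbMo) (((Nat.even_sub hle).1 h).2 hle')
        have e2 : ¬ Even (b * M + l) := by
          rw [Nat.not_even_iff_odd]; exact hbMo.add_even hle'
        rw [if_neg e1, if_neg e2, if_neg hbe, if_pos hle', inv_inv]
        exact hp
      · have e1 : Even (b * M - l) := (Nat.even_sub hle).2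
          ⟨fun h => absurd h (Nat.not_even_iff_odd.2 hbMo), fun h => absurd h hle'⟩
        have e2 : Even (b * M + l) := hbMo.add_odd (Nat.not_even_iff_odd.1 hle')
        rw [if_pos e1, if_pos e2, if_neg hbe, if_neg hle', ← mul_inv]
        exact hp.inv

include hnM in
/-- one block -/
theorem block (hh : ∃ c, h = 2 * n * c + (n - 1) / 2) (hn : n % 4 = 1) (hM1 : Odd M) (b : ℕ) :
    Cg (Reg η) (Φ M) 2 (∏ j ∈ range M, f n (M * b + h + j + 1))
      (if Even (b + 1) then ∏ l ∈ range h, F n 1 (l + 1) else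
        (∏ l ∈ range h, F n 1 (l + 1))⁻¹) := by
  have e1 : ∏ j ∈ range M, f n (M * b + h + j + 1) =
      ∏ l ∈ range h, (f n ((b + 1) * M - (l + 1)) * f n ((b + 1) * M + (l + 1))) := by
    have e2 : ∏ j ∈ range M, f n (M * b + h + j + 1) =
        ∏ j ∈ range (2 * h + 1), f n ((M * b + h + 1) + j) := by
      rw [← hM]
      exact prod_congr rfl (fun j _ => by rw [show M * b + h + j + 1 = M * b + h + 1 + j by ring])
    have e3 : M * b + h + 1 + h = (b + 1) * M := by rw [hM]; ring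
    rw [e2, prod_window]
    have e4 : f n (M * b + h + 1 + h) = 1 := by
      rw [e3]; unfold f; rw [if_pos (hnM.mul_left _)]
    rw [e4, one_mul]
    apply prod_congr rfl
    intro l hl
    have := mem_range.1 hl
    rw [show M * b + h + 1 + (h - 1 - l) = (b + 1) * M - (l + 1) by rw [← e3]; omega,
      show M * b + h + 1 + h + 1 + l = (b + 1) * M + (l + 1) by rw [← e3]; ring]
  rw [e1]
  have h1 : Cg (Reg η) (Φ M) 2
      (∏ l ∈ range h, (f n ((b + 1) * M - (l + 1)) * f n ((b + 1) * M + (l + 1))))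
      (∏ l ∈ range h, (if Even (b + 1) then F n (q ^ ((b + 1) * M)) (l + 1) else
        (F n (q ^ ((b + 1) * M)) (l + 1))⁻¹)) := by
    apply Cg.prod
    intro l hl
    have := mem_range.1 hl
    exact pair_f hη hM hnM hM1 (by omega) (by omega) (by omega)
  have e5 : ∏ l ∈ range h, F n (q ^ ((b + 1) * M)) (l + 1) = ∏ l ∈ range h, F n 1 (l + 1) := by
    rw [prod_congr rfl (fun l _ => F_eq (q ^ ((b + 1) * M)) (l + 1)), prod_mul_distrib]
    obtain ⟨c, hc⟩ := hh
    have := w_prod (n := n) (u := q ^ ((b + 1) * M)) (pow_ne_zero _ q_ne) hn c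
    rw [← hc] at this
    rw [this, mul_one]
  convert h1 using 1
  split_ifs
  · exact e5.symm
  · rw [prod_inv_distrib, e5]

include hnM in
theorem ratio (hh : ∃ c, h = 2 * n * c + (n - 1) / 2) (hn : n % 4 = 1) (hM1 : Odd M) (B : ℕ) :
    Cg (Reg η) (Φ M) 2 (∏ i ∈ range (M * (2 * B) + h), f n (i + 1))
      (∏ i ∈ range h, f n (i + 1)) := by
  induction B with
  | zero =>
    rw [mul_zero, mul_zero, zero_add]
    apply Cg.refl
    apply U.prod
    intro i hi
    have := mem_range.1 hi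
    unfold f g
    split_ifs
    · exact U.one
    · exact (unit_one_sub hη hM (Nat.not_dvd_of_pos_of_lt (by omega) (by omega))).inv
    · exact unit_one_sub hη hM (Nat.not_dvd_of_pos_of_lt (by omega) (by omega))
  | succ B ih =>
    have e : M * (2 * (B + 1)) + h = (M * (2 * B) + h) + M + M := by ring
    rw [e, prod_range_add, prod_range_add]
    have b1 := block hη hM hnM hh hn hM1 (2 * B)
    have b2 := block hη hM hnM hh hn hM1 (2 * B + 1)
    rw [if_neg (by rw [Nat.not_even_iff_odd]; exact ⟨B, rfl⟩)] at b1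
    rw [if_pos (by rw [show 2 * B + 1 + 1 = 2 * (B + 1) by ring]; exact even_two_mul _)] at b2
    have b3 := (ih.mul b1).mul b2
    have hne := b2.2.1.2.2
    rw [mul_assoc (∏ i ∈ range h, f n (i + 1)), inv_mul_cancel₀ hne, mul_one] at b3
    convert b3 using 2
    apply prod_congr rfl
    intro i _
    congr 1; ring

end local_part

theorem result : ∀ n r s : ℕ, n % 4 = 1 → 1 < n → 0 < s → s < r →
    cyclotomic (n ^ s) ℚ ^ 2 ∣ RatFunc.num (R n r - R n s) ∧
      IsCoprime (RatFunc.denom (R n r - R n s)) (cyclotomic (n ^ s) ℚ ^ 2) := by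
  intro n r s hn hn1 hs hsr
  have hpow : ∀ s, n ^ s % 4 = 1 := by
    intro s
    rw [Nat.pow_mod, hn, one_pow]; rfl
  have hpos : 0 < n ^ s := pow_pos (by omega) s
  have hη := Complex.isPrimitiveRoot_exp (n ^ s) hpos.ne'
  set M := n ^ s with hM
  have hMs := hpow s
  rw [← hM] at hMs
  have hM2 : M = 2 * ((M - 1) / 2) + 1 := by omega
  have hnM : n ∣ M := dvd_pow_self n hs.ne'
  have hM1 : Odd M := Nat.odd_iff.2 (by omega)
  have hh : ∃ c, (M - 1) / 2 = 2 * n * c + (n - 1) / 2 := by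
    refine ⟨(n ^ (s - 1) - 1) / 4, ?_⟩
    have h1 : M = n * n ^ (s - 1) := by
      conv_lhs => rw [hM, show s = (s - 1) + 1 by omega, pow_succ, mul_comm]
    have h2 := hpow (s - 1)
    obtain ⟨c, hc⟩ : ∃ c, n ^ (s - 1) = 4 * c + 1 := ⟨n ^ (s - 1) / 4, by omega⟩
    rw [hc] at h1 ⊢
    have h3 : (4 * c + 1 - 1) / 4 = c := by omega
    rw [h3]
    have h4 : M = 2 * (2 * n * c) + n := by rw [h1]; ring
    omega
  have key := ratio hη hM2 hnM hh hn hM1 ((n ^ (r - s) - 1) / 4)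
  have hr1 : (n ^ r - 1) / 2 = M * (2 * ((n ^ (r - s) - 1) / 4)) + (M - 1) / 2 := by
    have h1 : n ^ r = M * n ^ (r - s) := by rw [hM, ← pow_add]; congr 1; omega
    obtain ⟨c, hc⟩ : ∃ c, n ^ (r - s) = 4 * c + 1 := ⟨n ^ (r - s) / 4, by have := hpow (r - s); omega⟩
    rw [hc] at h1 ⊢
    have h3 : (4 * c + 1 - 1) / 4 = c := by omega
    rw [h3, h1]
    have h4 : M * (4 * c + 1) = 2 * (M * (2 * c)) + M := by ring
    omega
  rw [← hr1, ← R_eq hn (by omega)] at key
  have hs1 : (M - 1) / 2 = (n ^ s - 1) / 2 := by rw [hM]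
  rw [hs1, ← R_eq hn hs] at key
  have hmem := key.2.2
  obtain ⟨k1, k2⟩ := num_dvd hpos hη hmem
  exact ⟨k1, k2.pow_right⟩

end Pool.Agent.Results.MP_74870a_nt.Full
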